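import Pool.Agent.P.MP_59d9ab_co.Fourier

set_option autoImplicit false
set_option linter.unusedSectionVars false

open Finset

namespace Pool.Agent.P.MP_59d9ab_co

section Geometry

variable {F V : Type*} [Field F] [Fintype F] [DecidableEq F] [AddCommGroup V] [Module F V]
  [Fintype V] [DecidableEq V]

/-- no three distinct points of `S` are collinear -/
def IsCap (F : Type*) {V : Type*} [Field F] [AddCommGroup V] [Module F V] (S : Finset V) : Prop :=
  ∀ x ∈ S, ∀ y ∈ S, ∀ z ∈ S, x ≠ y → x ≠ z → y ≠ z → ¬ Collinear F ({x, y, z} : Set V)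

lemma collinear_of_smul {x y z : V} {s s' : F} (hs : s ≠ 0)
    (h : s • (y - x) = s' • (z - x)) : Collinear F ({x, y, z} : Set V) := by
  rw [collinear_iff_of_mem (p₀ := x) (by simp)]
  refine ⟨z - x, ?_⟩
  intro p hp
  simp only [Set.mem_insert_iff, Set.mem_singleton_iff] at hp
  rcases hp with rfl | rfl | rfl
  · exact ⟨0, by simp⟩
  · refine ⟨s⁻¹ * s', ?_⟩
    rw [mul_smul, ← h, smul_smul, inv_mul_cancel₀ hs]; simp
  · exact ⟨1, by simp⟩

/-- the cone over `S` -/
def cone (S : Finset V) (i : S × {t : F // t ≠ 0}) : F × V := (i.2.1, i.2.1 • i.1.1)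

lemma cone_inj (S : Finset V) : Function.Injective (cone (F := F) S) := by
  rintro ⟨a, t⟩ ⟨b, s⟩ h
  simp only [cone, Prod.mk.injEq] at h
  obtain ⟨h1, h2⟩ := h
  have ht : t = s := Subtype.ext h1
  subst ht
  have : a.1 = b.1 := smul_right_injective V t.2 h2
  rw [Subtype.ext this]

lemma cone_ne_zero (S : Finset V) (i : S × {t : F // t ≠ 0}) : cone S i ≠ 0 := by
  intro h
  exact i.2.2 (congrArg Prod.fst h)

lemma neg_cone (S : Finset V) (i : S × {t : F // t ≠ 0}) :
    -cone S i = cone S (i.1, ⟨-i.2.1, neg_ne_zero.2 i.2.2⟩) := by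
  simp [cone]

lemma card_ne_zero : (Fintype.card {t : F // t ≠ 0} : ℝ) = Fintype.card F - 1 := by
  rw [Fintype.card_subtype_compl, Fintype.card_subtype_eq]
  have : 1 ≤ Fintype.card F := Fintype.card_pos
  push_cast [this]
  ring

lemma rep_zero (S : Finset V) :
    rep (cone (F := F) S) 0 ≤ Fintype.card (S × {t : F // t ≠ 0}) := by
  unfold rep
  rw [← Finset.card_univ]
  norm_cast
  refine Finset.card_le_card_of_injOn Prod.fst (fun _ _ => by simp) ?_
  rintro ⟨i, j⟩ h ⟨i', j'⟩ h' hh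
  simp only [Finset.coe_filter, Finset.mem_univ, true_and, Set.mem_setOf_eq] at h h' hh
  subst hh
  rw [cone_inj S (add_left_cancel (h.trans h'.symm))]

lemma rep_cone {S : Finset V} (hS : IsCap F S) (k : S × {t : F // t ≠ 0}) :
    rep (cone (F := F) S) (cone S k) ≤ Fintype.card F - 2 := by
  unfold rep
  obtain ⟨c, u⟩ := k
  have key : ∀ i j : S × {t : F // t ≠ 0}, cone S i + cone S j = cone S (c, u) →
      i.1 = c ∧ i.2.1 ≠ u.1 := by
    rintro ⟨a, t⟩ ⟨b, s⟩ h
    simp only [cone, Prod.mk_add_mk, Prod.mk.injEq] at h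
    obtain ⟨h1, h2⟩ := h
    refine ⟨?_, ?_⟩
    · by_contra hac
      have e1 : t.1 • (a.1 - c.1) = (-s.1) • (b.1 - c.1) := by
        rw [← h1, add_smul] at h2
        linear_combination (norm := module) h2
      have hac' : c.1 ≠ a.1 := fun h => hac (Subtype.ext h.symm)
      have hbc : c.1 ≠ b.1 := by
        intro h
        rw [← h, sub_self, smul_zero, smul_eq_zero] at e1
        rcases e1 with e1 | e1
        · exact t.2 e1
        · exact hac' (sub_eq_zero.1 e1).symm
      have hab : a.1 ≠ b.1 := by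
        intro h
        rw [← h] at e1
        have : (t.1 + s.1) • (a.1 - c.1) = 0 := by
          rw [add_smul, e1, neg_smul]; simp
        rw [h1, smul_eq_zero] at this
        rcases this with e | e
        · exact u.2 e
        · exact hac' (sub_eq_zero.1 e).symm
      exact hS c.1 c.2 a.1 a.2 b.1 b.2 hac' hbc hab (collinear_of_smul t.2 e1)
    · intro h
      simp only at h
      rw [← h] at h1
      exact s.2 (by simpa using h1)
  have hcard : (univ.filter fun p : (S × {t : F // t ≠ 0}) × (S × {t : F // t ≠ 0}) =>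
      cone S p.1 + cone S p.2 = cone S (c, u)).card ≤ ((univ.erase (0 : F)).erase u.1).card := by
    refine Finset.card_le_card_of_injOn (fun p => p.1.2.1) ?_ ?_
    · rintro ⟨i, j⟩ h
      simp only [Finset.coe_filter, Finset.mem_univ, true_and, Set.mem_setOf_eq] at h
      simp only [Finset.coe_erase, Finset.coe_univ, Set.mem_diff, Set.mem_univ, true_and,
        Set.mem_singleton_iff]
      exact ⟨i.2.2, (key i j h).2⟩
    · rintro ⟨i, j⟩ h ⟨i', j'⟩ h' hh
      simp only [Finset.coe_filter, Finset.mem_univ, true_and, Set.mem_setOf_eq] at h h' hh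
      have hi : i = i' := Prod.ext ((key i j h).1.trans (key i' j' h').1.symm) (Subtype.ext hh)
      subst hi
      rw [cone_inj S (add_left_cancel (h.trans h'.symm))]
  rw [Finset.card_erase_of_mem (by simp [u.2]), Finset.card_erase_of_mem (by simp),
    Finset.card_univ] at hcard
  have h2 : 2 ≤ Fintype.card F := Fintype.one_lt_card
  have : ((Fintype.card F - 1 - 1 : ℕ) : ℝ) = Fintype.card F - 2 := by
    rw [Nat.sub_sub]; push_cast [h2]; ring
  rw [← this]
  exact_mod_cast hcard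

lemma rep_other {S : Finset V} (hS : IsCap F S) (v : F × V) (hv : v ≠ 0)
    (hv' : ∀ i, cone S i ≠ v) : rep (cone (F := F) S) v ≤ S.card := by
  unfold rep
  have key : ∀ i j : S × {t : F // t ≠ 0}, cone S i + cone S j = v → i.1.1 ≠ j.1.1 := by
    rintro ⟨a, t⟩ ⟨b, s⟩ h hab
    simp only at hab
    have hv2 : v = (t.1 + s.1, (t.1 + s.1) • a.1) := by
      rw [← h]; simp [cone, ← hab, add_smul]
    by_cases h0 : t.1 + s.1 = 0
    · apply hv; rw [hv2, h0]; simp
    · exact hv' (a, ⟨_, h0⟩) hv2.symm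
  rw [← Fintype.card_coe S, ← Finset.card_univ]
  norm_cast
  refine Finset.card_le_card_of_injOn (fun p => p.1.1) (fun _ _ => by simp) ?_
  rintro ⟨⟨a, t⟩, ⟨b, s⟩⟩ h ⟨⟨a', t'⟩, ⟨b', s'⟩⟩ h' hh
  simp only [Finset.coe_filter, Finset.mem_univ, true_and, Set.mem_setOf_eq] at h h' hh
  subst hh
  have hab := key _ _ h
  have hab' := key _ _ h'
  simp only at hab hab'
  have h3 := h.trans h'.symm
  simp only [cone, Prod.mk_add_mk, Prod.mk.injEq] at h3
  obtain ⟨h1, h2⟩ := h3
  have e1 : s.1 • (b.1 - a.1) = s'.1 • (b'.1 - a.1) := by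
    have : (t.1 + s.1) • a.1 = (t'.1 + s'.1) • a.1 := by rw [h1]
    linear_combination (norm := module) h2 - this
  have hbb : b = b' := by
    by_contra hne
    exact hS a.1 a.2 b.1 b.2 b'.1 b'.2 hab hab' (fun h => hne (Subtype.ext h))
      (collinear_of_smul s.2 e1)
  subst hbb
  have hs : s = s' := by
    apply Subtype.ext
    have : (s.1 - s'.1) • (b.1 - a.1) = 0 := by rw [sub_smul, e1, sub_self]
    rcases smul_eq_zero.1 this with e | e
    · exact sub_eq_zero.1 e
    · exact absurd (sub_eq_zero.1 e).symm hab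
  subst hs
  have ht : t = t' := Subtype.ext (add_right_cancel h1)
  rw [ht]

lemma exists_real_transform (S : Finset V) :
    ∃ f : AddChar (F × V) ℂ → ℝ, (∀ ψ, (f ψ : ℂ) = ∑ i, ψ (cone S i)) ∧
      ∀ ψ, -(S.card : ℝ) ≤ f ψ := by
  classical
  let l : V → F →+ F × V := fun a =>
    { toFun := fun t => (t, t • a)
      map_zero' := by simp
      map_add' := by intro x y; simp [add_smul] }
  refine ⟨fun ψ => ∑ a : S, ((if ψ.compAddMonoidHom (l a.1) = 0 then (Fintype.card F : ℝ) else 0)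
    - 1), ?_, ?_⟩
  · intro ψ
    rw [Fintype.sum_prod_type]
    push_cast
    refine Finset.sum_congr rfl fun a _ => ?_
    have h1 := AddChar.sum_eq_ite (ψ.compAddMonoidHom (l a.1))
    have h2 := Fintype.sum_subtype_add_sum_subtype (fun t : F => t ≠ 0)
      (fun t => ψ.compAddMonoidHom (l a.1) t)
    have h3 : ∑ t : {t : F // ¬ t ≠ 0}, ψ.compAddMonoidHom (l a.1) t = 1 := by
      have : Unique {t : F // ¬ t ≠ 0} :=
        { default := ⟨0, by simp⟩
          uniq := fun x => Subtype.ext (by simpa using x.2) }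
      rw [Fintype.sum_unique]
      have : ((default : {t : F // ¬ t ≠ 0}) : F) = 0 := by
        simpa using (default : {t : F // ¬ t ≠ 0}).2
      rw [this]; simp
    rw [h3, h1] at h2
    have h4 : ∑ t : {t : F // t ≠ 0}, ψ (cone S (a, t))
        = ∑ t : {t : F // t ≠ 0}, ψ.compAddMonoidHom (l a.1) t := rfl
    rw [h4]
    generalize (∑ t : {t : F // t ≠ 0}, ψ.compAddMonoidHom (l a.1) t) = z at h2 ⊢
    split_ifs at h2 ⊢ with h5
    · push_cast; linear_combination -h2
    · push_cast; linear_combination -h2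
  · intro ψ
    have : -(S.card : ℝ) = ∑ _a : S, (-1 : ℝ) := by simp
    rw [this]
    refine Finset.sum_le_sum fun a _ => ?_
    split_ifs
    · have : (0 : ℝ) ≤ Fintype.card F := by positivity
      linarith
    · linarith

theorem cap_ineq {S : Finset V} (hS : IsCap F S) (q Q N : ℝ) (hq : q = Fintype.card F)
    (hQ : Q = q * Fintype.card V) (hN : N = S.card) (h1 : q - 1 ≤ N) :
    ∃ M : ℝ, (N * (q - 1)) ^ 3 - Q * (N * (q - 1)) * (q - 2) ≤ M ∧
      (N - (q - 2)) * M ^ 2 ≤ Q ^ 2 * (N * (q - 1)) ^ 4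
        + (N * (q - 1)) * (N * Q - (N * (q - 1)) ^ 2) * N * M := by
  obtain ⟨f, hf, hlow⟩ := exists_real_transform (F := F) S
  have hn : N * (q - 1) = Fintype.card (S × {t : F // t ≠ 0}) := by
    rw [Fintype.card_prod, Fintype.card_coe]
    push_cast
    rw [card_ne_zero, hN, hq]
  refine key (cone S) (cone_inj S) (cone_ne_zero S) f hf _ Q N (q - 2) hn ?_ ?_ ?_ ?_ ?_ ?_ ?_ ?_
  · rw [hQ, hq, Fintype.card_prod]; push_cast; ring
  · rw [hN]; positivity
  · linarith
  · rw [hN]; exact hlow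
  · rw [hn]; exact rep_zero S
  · intro i; rw [hq]; exact rep_cone hS i
  · intro i; rw [hq, neg_cone]; exact rep_cone hS _
  · intro v hv hv'; rw [hN]; exact rep_other hS v hv hv'

end Geometry

lemma arith (q N M : ℝ) (hq : 3 ≤ q) (hN : q ^ 3 / 2 + 3 * q ^ 2 < N)
    (h1 : (N * (q - 1)) ^ 3 - q ^ 5 * (N * (q - 1)) * (q - 2) ≤ M)
    (h2 : (N - (q - 2)) * M ^ 2 ≤ (q ^ 5) ^ 2 * (N * (q - 1)) ^ 4
        + (N * (q - 1)) * (N * q ^ 5 - (N * (q - 1)) ^ 2) * N * M) : False := by
  obtain ⟨x, rfl⟩ : ∃ x, q = x + 3 := ⟨q - 3, by ring⟩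
  have hx : 0 ≤ x := by linarith
  set q := x + 3 with hqx
  have hq0 : 0 < q := by linarith
  set u := q - 1 with hu
  have hu0 : 0 < u := by linarith
  set t := q ^ 3 / 2 + 3 * q ^ 2 with ht
  have ht0 : 0 < t := by positivity
  have hN0 : 0 < N := by linarith
  set n := N * u with hn
  have hn0 : 0 < n := by positivity
  set D := n ^ 2 - q ^ 5 * (q - 2) with hD
  set f := 4 * q ^ 4 - 14 * q ^ 3 + 14 * q ^ 2 - 5 * q + 2 with hf
  have hf0 : 0 < f := by
    have : f = 4 * x ^ 4 + 34 * x ^ 3 + 104 * x ^ 2 + 133 * x + 59 := by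
      rw [hf, hqx]; ring
    rw [this]; positivity
  set D0 := u ^ 2 * q ^ 4 * ((q + 4) * (q + 8) / 4) with hD0
  have hD00 : 0 < D0 := by positivity
  have hDD : D0 ≤ D := by
    have h3 : (t * u) ^ 2 ≤ n ^ 2 := by
      apply pow_le_pow_left₀ (by positivity)
      exact mul_le_mul_of_nonneg_right hN.le hu0.le
    have h4 : (t * u) ^ 2 - q ^ 5 * (q - 2) = D0 + q ^ 4 := by
      rw [ht, hD0, hu]; ring
    have : 0 < q ^ 4 := by positivity
    linarith
  have hfD : (q ^ 5) ^ 2 * u ^ 2 < f * D0 := by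
    have : f * D0 - (q ^ 5) ^ 2 * u ^ 2 = u ^ 2 * q ^ 4 *
        (34 * x ^ 5 + 484 * x ^ 4 + 2463 * x ^ 3 + 5601 * x ^ 2 + 5471 * x + 1627) / 4 := by
      rw [hf, hD0, hqx]; ring
    have h5 : 0 < u ^ 2 * q ^ 4 *
        (34 * x ^ 5 + 484 * x ^ 4 + 2463 * x ^ 3 + 5601 * x ^ 2 + 5471 * x + 1627) / 4 := by
      positivity
    linarith
  set E := (N - (q - 2)) * D - N * (N * q ^ 5 - n ^ 2) with hE
  have hq2 : 0 ≤ q - 2 := by linarith
  have hEf : N ^ 2 * f ≤ E := by
    have h3 : q ^ 3 ≤ 2 * N := by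
      have : 0 < q ^ 2 := by positivity
      linarith
    have h4 : E - N ^ 2 * f = N ^ 2 * (2 * u ^ 2 * (N - t)) + N * (q - 2) * q ^ 2 * (2 * N - q ^ 3)
        + q ^ 5 * (q - 2) ^ 2 := by
      rw [hE, hD, hn, hf, ht, hu]; ring
    have h5 : 0 ≤ N ^ 2 * (2 * u ^ 2 * (N - t)) := by
      have : 0 ≤ N - t := by linarith
      positivity
    have h6 : 0 ≤ N * (q - 2) * q ^ 2 * (2 * N - q ^ 3) := by
      have : 0 ≤ 2 * N - q ^ 3 := by linarith
      positivity
    have h7 : 0 ≤ q ^ 5 * (q - 2) ^ 2 := by positivity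
    linarith
  have hM : n * D ≤ M := by
    have : n * D = n ^ 3 - q ^ 5 * n * (q - 2) := by rw [hD]; ring
    linarith
  have hNq : 0 ≤ N - (q - 2) := by
    have : q ≤ q ^ 2 := by nlinarith
    have : 0 < q ^ 3 := by positivity
    linarith
  set L := (N - (q - 2)) * M - n * (N * q ^ 5 - n ^ 2) * N with hL
  have hLE : n * E ≤ L := by
    have := mul_le_mul_of_nonneg_left hM hNq
    rw [hL, hE]; nlinarith
  have hML : M * L ≤ (q ^ 5) ^ 2 * n ^ 4 := by rw [hL]; nlinarith
  have hA : n * D0 ≤ M := le_trans (mul_le_mul_of_nonneg_left hDD hn0.le) hM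
  have hB : n * (N ^ 2 * f) ≤ L := le_trans (mul_le_mul_of_nonneg_left hEf hn0.le) hLE
  have hC : (n * D0) * (n * (N ^ 2 * f)) ≤ M * L :=
    mul_le_mul hA hB (by positivity) (le_trans (by positivity) hA)
  have hD' : (n * D0) * (n * (N ^ 2 * f)) = n ^ 2 * N ^ 2 * (f * D0) := by ring
  have hE' : (q ^ 5) ^ 2 * n ^ 4 = n ^ 2 * N ^ 2 * ((q ^ 5) ^ 2 * u ^ 2) := by
    rw [hn]; ring
  have hF : n ^ 2 * N ^ 2 * ((q ^ 5) ^ 2 * u ^ 2) < n ^ 2 * N ^ 2 * (f * D0) :=
    mul_lt_mul_of_pos_left hfD (by positivity)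
  linarith

end Pool.Agent.P.MP_59d9ab_co
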