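import Mathlib

set_option autoImplicit false

open Finset

namespace Pool.Agent.P.MP_59d9ab_co

section Abstract

variable {W ι : Type*} [AddCommGroup W] [Fintype W] [DecidableEq W] [Fintype ι]

/-- number of ordered representations of `v` as a sum of two members of the family `e` -/
noncomputable def rep (e : ι → W) (v : W) : ℝ :=
  ((univ.filter fun p : ι × ι => e p.1 + e p.2 = v).card : ℝ)

lemma rep_eq_sum (e : ι → W) (v : W) :
    rep e v = ∑ p : ι × ι, if e p.1 + e p.2 = v then (1 : ℝ) else 0 := by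
  unfold rep
  rw [Finset.card_filter]
  push_cast
  rfl

lemma rep_nonneg (e : ι → W) (v : W) : 0 ≤ rep e v := by
  unfold rep; positivity

lemma sum_rep_mul (e : ι → W) (w : W → ℂ) :
    ∑ v, (rep e v : ℂ) * w v = ∑ p : ι × ι, w (e p.1 + e p.2) := by
  simp_rw [rep_eq_sum]
  push_cast
  simp_rw [Finset.sum_mul]
  rw [Finset.sum_comm]
  refine Finset.sum_congr rfl fun p _ => ?_
  rw [Finset.sum_eq_single (e p.1 + e p.2)]
  · simp
  · intro b _ hb
    simp [Ne.symm hb]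
  · simp

lemma sq_char (e : ι → W) (ψ : AddChar W ℂ) :
    (∑ i, ψ (e i)) ^ 2 = ∑ p : ι × ι, ψ (e p.1 + e p.2) := by
  rw [sq, Finset.sum_mul_sum, Fintype.sum_prod_type]
  simp [AddChar.map_add_eq_mul]

lemma sum_sq_char (e : ι → W) (w : W) :
    ∑ ψ : AddChar W ℂ, (∑ i, ψ (e i)) ^ 2 * ψ w = (Fintype.card W : ℂ) * rep e (-w) := by
  simp_rw [sq_char, Finset.sum_mul, ← AddChar.map_add_eq_mul]
  rw [Finset.sum_comm]
  simp_rw [AddChar.sum_apply_eq_ite, rep_eq_sum]
  push_cast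
  rw [Finset.mul_sum]
  refine Finset.sum_congr rfl fun p _ => ?_
  by_cases h : e p.1 + e p.2 = -w
  · simp [h]
  · have : e p.1 + e p.2 + w ≠ 0 := fun h' => h (eq_neg_of_add_eq_zero_left h')
    simp [h, this]

lemma normSq_expand (g : AddChar W ℂ → ℝ) (v : W) :
    ((Complex.normSq (∑ ψ : AddChar W ℂ, (g ψ : ℂ) * ψ v) : ℝ) : ℂ)
      = ∑ ψ : AddChar W ℂ, ∑ χ : AddChar W ℂ, (g ψ : ℂ) * g χ * (ψ - χ) v := by
  rw [← Complex.mul_conj, map_sum, Finset.sum_mul_sum]
  refine Finset.sum_congr rfl fun ψ _ => Finset.sum_congr rfl fun χ _ => ?_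
  rw [map_mul, Complex.conj_ofReal, AddChar.sub_apply, AddChar.map_neg_eq_conj]
  ring

lemma weighted_bound (e : ι → W) (hinj : Function.Injective e) (he0 : ∀ i, e i ≠ 0)
    (n N a : ℝ) (hN : 0 ≤ N) (hr0 : rep e 0 ≤ n) (hr1 : ∀ i, rep e (e i) ≤ a)
    (hr2 : ∀ v, v ≠ 0 → (∀ i, e i ≠ v) → rep e v ≤ N) (w : W → ℝ) (hw : ∀ v, 0 ≤ w v) :
    ∑ v, rep e v * w v ≤ n * w 0 + N * ∑ v, w v - (N - a) * ∑ i, w (e i) := by
  classical
  have h1 : ∑ i, w (e i) = ∑ v, if v ∈ univ.image e then w v else 0 := by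
    rw [← Finset.sum_filter]
    have : univ.filter (fun v => v ∈ univ.image e) = univ.image e := by
      ext v; simp
    rw [this, Finset.sum_image (fun x _ y _ h => hinj h)]
  have h2 : n * w 0 = ∑ v, if v = 0 then n * w v else 0 := by simp
  rw [h1, h2, Finset.mul_sum, Finset.mul_sum, ← Finset.sum_add_distrib, ← Finset.sum_sub_distrib]
  refine Finset.sum_le_sum fun v _ => ?_
  have hv := hw v
  by_cases h0 : v = 0
  · have : v ∉ univ.image e := by
      simp only [Finset.mem_image, Finset.mem_univ, true_and, not_exists]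
      intro i hi; exact he0 i (hi.trans h0)
    rw [if_pos h0, if_neg this]
    subst h0
    nlinarith [mul_le_mul_of_nonneg_right hr0 hv, mul_nonneg hN hv]
  · by_cases h3 : v ∈ univ.image e
    · rw [if_neg h0, if_pos h3]
      obtain ⟨i, _, rfl⟩ := Finset.mem_image.1 h3
      nlinarith [mul_le_mul_of_nonneg_right (hr1 i) hv]
    · rw [if_neg h0, if_neg h3]
      have := hr2 v h0 (fun i hi => h3 (Finset.mem_image.2 ⟨i, Finset.mem_univ _, hi⟩))
      nlinarith [mul_le_mul_of_nonneg_right this hv]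

theorem key (e : ι → W) (hinj : Function.Injective e) (he0 : ∀ i, e i ≠ 0)
    (f : AddChar W ℂ → ℝ) (hf : ∀ ψ, (f ψ : ℂ) = ∑ i, ψ (e i))
    (n Q N a : ℝ) (hn : n = Fintype.card ι) (hQ : Q = Fintype.card W)
    (hN : 0 ≤ N) (haN : a + 1 ≤ N) (hlow : ∀ ψ, -N ≤ f ψ)
    (hr0 : rep e 0 ≤ n) (hr1 : ∀ i, rep e (e i) ≤ a) (hr1' : ∀ i, rep e (-(e i)) ≤ a)
    (hr2 : ∀ v, v ≠ 0 → (∀ i, e i ≠ v) → rep e v ≤ N) :
    ∃ M : ℝ, n ^ 3 - Q * n * a ≤ M ∧
      (N - a) * M ^ 2 ≤ Q ^ 2 * n ^ 4 + n * (N * Q - n ^ 2) * N * M := by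
  classical
  set m : AddChar W ℂ → ℝ := fun ψ => max (-f ψ) 0 with hm
  set g : AddChar W ℂ → ℝ := fun ψ => m ψ ^ 2 with hg
  set φ : W → ℂ := fun v => ∑ ψ : AddChar W ℂ, (g ψ : ℂ) * ψ v with hφ
  set M : ℝ := ∑ ψ, m ψ ^ 3 with hM
  have hm0 : ∀ ψ, 0 ≤ m ψ := fun ψ => le_max_right _ _
  have hmN : ∀ ψ, m ψ ≤ N := fun ψ => max_le (by linarith [hlow ψ]) hN
  have hg0 : ∀ ψ, 0 ≤ g ψ := fun ψ => sq_nonneg _
  have hn0 : 0 ≤ n := by rw [hn]; positivity
  have hQ0 : 0 ≤ Q := by rw [hQ]; positivity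
  have hf0 : f 0 = n := by
    have := hf 0
    simp only [AddChar.zero_apply, Finset.sum_const, Finset.card_univ, nsmul_eq_mul,
      mul_one] at this
    rw [hn]; exact_mod_cast this
  have hgf : ∀ ψ, g ψ * f ψ = -(m ψ ^ 3) := by
    intro ψ
    simp only [hg, hm]
    rcases le_total (-f ψ) 0 with h | h
    · rw [max_eq_right h]; ring
    · rw [max_eq_left h]; ring
  have hgle : ∀ ψ, g ψ ≤ f ψ ^ 2 := by
    intro ψ
    simp only [hg, hm]
    rcases le_total (-f ψ) 0 with h | h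
    · rw [max_eq_right h]; nlinarith [sq_nonneg (f ψ)]
    · rw [max_eq_left h]; nlinarith
  -- second moment
  have h2 : ∑ ψ, f ψ ^ 2 = Q * rep e 0 := by
    have := sum_sq_char e (0 : W)
    simp only [AddChar.map_zero_eq_one, mul_one, neg_zero, ← hf] at this
    rw [hQ]; exact_mod_cast this
  -- third moment
  have h3 : ∑ ψ, f ψ ^ 3 ≤ Q * n * a := by
    have h : ((∑ ψ, f ψ ^ 3 : ℝ) : ℂ) = ((∑ i, Q * rep e (-(e i)) : ℝ) : ℂ) := by
      push_cast
      have : ∀ i, (Q : ℂ) * (rep e (-(e i)) : ℂ)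
          = ∑ ψ : AddChar W ℂ, (∑ j, ψ (e j)) ^ 2 * ψ (e i) := by
        intro i; rw [sum_sq_char, hQ]; push_cast; rfl
      simp_rw [this]
      rw [Finset.sum_comm]
      refine Finset.sum_congr rfl fun ψ _ => ?_
      rw [← Finset.mul_sum, ← hf]; ring
    have h' : ∑ ψ, f ψ ^ 3 = ∑ i, Q * rep e (-(e i)) := by exact_mod_cast h
    rw [h']
    calc ∑ i, Q * rep e (-(e i)) ≤ ∑ _i : ι, Q * a :=
          Finset.sum_le_sum fun i _ => mul_le_mul_of_nonneg_left (hr1' i) hQ0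
      _ = Q * n * a := by
          rw [Finset.sum_const, Finset.card_univ, nsmul_eq_mul, hn]; ring
  have hMlow : n ^ 3 - Q * n * a ≤ M := by
    have h : n ^ 3 ≤ ∑ ψ, (f ψ ^ 3 + m ψ ^ 3) := by
      have hnn : ∀ ψ ∈ (univ : Finset (AddChar W ℂ)), 0 ≤ f ψ ^ 3 + m ψ ^ 3 := by
        intro ψ _
        simp only [hm]
        rcases le_total (-f ψ) 0 with h | h
        · rw [max_eq_right h]
          have : 0 ≤ f ψ := by linarith
          positivity
        · rw [max_eq_left h]; ring_nf; exact le_refl _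
      have := Finset.single_le_sum hnn (Finset.mem_univ (0 : AddChar W ℂ))
      have h0 : 0 ≤ m 0 ^ 3 := pow_nonneg (hm0 0) 3
      simp only [hf0] at this
      linarith
    rw [Finset.sum_add_distrib] at h
    linarith
  set w : W → ℝ := fun v => Complex.normSq (φ v) with hw
  have hw0 : ∀ v, 0 ≤ w v := fun v => Complex.normSq_nonneg _
  set G : ℝ := ∑ ψ, g ψ ^ 2 with hG
  -- Parseval
  have hY : ∑ v, w v = Q * G := by
    have h : ((∑ v, w v : ℝ) : ℂ) = ((Q * G : ℝ) : ℂ) := by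
      rw [Complex.ofReal_sum]
      simp only [hw, hφ, normSq_expand]
      rw [Finset.sum_comm, hG, hQ]
      push_cast
      rw [Finset.mul_sum]
      refine Finset.sum_congr rfl fun ψ _ => ?_
      rw [Finset.sum_comm]
      simp_rw [← Finset.mul_sum, AddChar.sum_eq_ite]
      rw [Finset.sum_eq_single ψ]
      · simp; ring
      · intro χ _ hχ
        have : ψ - χ ≠ 0 := sub_ne_zero.2 (Ne.symm hχ)
        simp [this]
      · simp
    exact_mod_cast h
  -- positivity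
  have hP : n ^ 2 * G ≤ ∑ v, rep e v * w v := by
    have h : ((∑ v, rep e v * w v : ℝ) : ℂ)
        = ((∑ ψ, ∑ χ, g ψ * g χ * f (ψ - χ) ^ 2 : ℝ) : ℂ) := by
      rw [Complex.ofReal_sum]
      simp only [Complex.ofReal_mul, hw, hφ, normSq_expand]
      simp_rw [Finset.mul_sum]
      rw [Finset.sum_comm]
      push_cast
      refine Finset.sum_congr rfl fun ψ _ => ?_
      rw [Finset.sum_comm]
      refine Finset.sum_congr rfl fun χ _ => ?_
      rw [hf, sq_char, ← sum_rep_mul e (fun v => (ψ - χ) v), Finset.mul_sum]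
      refine Finset.sum_congr rfl fun v _ => ?_
      ring
    have h' : ∑ v, rep e v * w v = ∑ ψ, ∑ χ, g ψ * g χ * f (ψ - χ) ^ 2 := by exact_mod_cast h
    rw [h', hG, Finset.mul_sum]
    refine Finset.sum_le_sum fun ψ _ => ?_
    have hnn : ∀ χ ∈ (univ : Finset (AddChar W ℂ)), 0 ≤ g ψ * g χ * f (ψ - χ) ^ 2 :=
      fun χ _ => mul_nonneg (mul_nonneg (hg0 ψ) (hg0 χ)) (sq_nonneg _)
    have := Finset.single_le_sum hnn (Finset.mem_univ ψ)
    simp only [sub_self, hf0] at this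
    nlinarith
  -- value at zero
  have hw00 : w 0 ≤ Q ^ 2 * n ^ 2 := by
    have h : φ 0 = ((∑ ψ, g ψ : ℝ) : ℂ) := by
      simp [hφ]
    have h1 : w 0 = (∑ ψ, g ψ) ^ 2 := by
      simp only [hw, h, Complex.normSq_ofReal]; ring
    have h4 : ∑ ψ, g ψ ≤ Q * n := by
      calc ∑ ψ, g ψ ≤ ∑ ψ, f ψ ^ 2 := Finset.sum_le_sum fun ψ _ => hgle ψ
        _ = Q * rep e 0 := h2
        _ ≤ Q * n := mul_le_mul_of_nonneg_left hr0 hQ0
    have h5 : 0 ≤ ∑ ψ, g ψ := Finset.sum_nonneg fun ψ _ => hg0 ψ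
    rw [h1, ← mul_pow]
    exact pow_le_pow_left₀ h5 h4 2
  -- Cauchy-Schwarz on the family
  have hX : M ^ 2 ≤ n * ∑ i, w (e i) := by
    have h : ∑ i, φ (e i) = ((-M : ℝ) : ℂ) := by
      simp only [hφ]
      rw [Finset.sum_comm]
      simp_rw [← Finset.mul_sum, ← hf]
      rw [hM, ← Finset.sum_neg_distrib]
      push_cast
      refine Finset.sum_congr rfl fun ψ _ => ?_
      have := congrArg (fun x : ℝ => (x : ℂ)) (hgf ψ)
      push_cast at this
      exact this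
    have h1 : ∑ i, (φ (e i)).re = -M := by
      have := congrArg Complex.re h
      rwa [Complex.re_sum, Complex.ofReal_re] at this
    have h4 : (∑ i, (φ (e i)).re) ^ 2 ≤ (Fintype.card ι : ℝ) * ∑ i, (φ (e i)).re ^ 2 := by
      have := sq_sum_le_card_mul_sum_sq (s := (univ : Finset ι)) (f := fun i => (φ (e i)).re)
      simpa using this
    have h5 : ∑ i, (φ (e i)).re ^ 2 ≤ ∑ i, w (e i) := by
      refine Finset.sum_le_sum fun i _ => ?_
      simp only [hw, Complex.normSq_apply]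
      nlinarith [mul_self_nonneg (φ (e i)).im]
    rw [h1, ← hn] at h4
    nlinarith [mul_le_mul_of_nonneg_left h5 hn0]
  have hGM : G ≤ N * M := by
    rw [hG, hM, Finset.mul_sum]
    refine Finset.sum_le_sum fun ψ _ => ?_
    simp only [hg]
    have := mul_le_mul_of_nonneg_right (hmN ψ) (pow_nonneg (hm0 ψ) 3)
    nlinarith
  have hB := weighted_bound e hinj he0 n N a hN hr0 hr1 hr2 w hw0
  have hB1 := weighted_bound e hinj he0 n N a hN hr0 hr1 hr2 (fun _ => 1) (fun _ => zero_le_one)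
  have hsum : ∑ v, rep e v * 1 = n ^ 2 := by
    have := sum_rep_mul e (fun _ => (1 : ℂ))
    simp only [Finset.sum_const, Finset.card_univ, Fintype.card_prod, nsmul_eq_mul] at this
    have h' : ((∑ v, rep e v * 1 : ℝ) : ℂ) = ((n ^ 2 : ℝ) : ℂ) := by
      push_cast; rw [this, hn]; push_cast; ring
    exact_mod_cast h'
  simp only [Finset.sum_const, Finset.card_univ, nsmul_eq_mul, ← hn, ← hQ, hsum] at hB1
  have hσ : 0 ≤ N * Q - n ^ 2 := by nlinarith
  refine ⟨M, hMlow, ?_⟩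
  rw [hY] at hB
  have hNa : 0 ≤ N - a := by linarith
  have e1 : (N - a) * ∑ i, w (e i) ≤ n * (Q ^ 2 * n ^ 2) + (N * Q - n ^ 2) * (N * M) := by
    have := mul_le_mul_of_nonneg_left hw00 hn0
    have := mul_le_mul_of_nonneg_left hGM hσ
    nlinarith
  have e2 := mul_le_mul_of_nonneg_left hX hNa
  have e3 := mul_le_mul_of_nonneg_left e1 hn0
  nlinarith

end Abstract

end Pool.Agent.P.MP_59d9ab_co
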