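import Mathlib

set_option autoImplicit false
set_option linter.unusedSectionVars false

namespace Pool.Agent.P.MP_59d9ab_co.Low

variable {F : Type} [Field F]

lemma aniso {e u v : F} (he : ¬ IsSquare e) (h : e * u ^ 2 = v ^ 2) : u = 0 ∧ v = 0 := by
  have hu : u = 0 := by
    by_contra hu
    exact he ⟨v / u, by field_simp; linear_combination h⟩
  refine ⟨hu, ?_⟩
  rw [hu] at h
  exact pow_eq_zero_iff (two_ne_zero) |>.1 (by linear_combination -h)

/-- a transversal of three focal quadrics is a special line -/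
lemma transversal {e ti tj tk tm wi wj wk wm l m n pj pk pm ri rk rm si sj sm : F}
    (he : ¬ IsSquare e) (hij : ti ≠ tj) (hjk : tj ≠ tk) (hki : tk ≠ ti)
    (him : ti ≠ tm) (hjm : tj ≠ tm) (hkm : tk ≠ tm)
    (hw : wm = e * ((tm - ti) * (tm - tj) * (tm - tk))) (hl : l ≠ 0)
    (ci : m * ((tj - ti) * ri) + n * ((tk - ti) * si) = 0)
    (cj : l * ((ti - tj) * pj) + n * ((tk - tj) * sj) = 0)
    (ck : l * ((ti - tk) * pk) + m * ((tj - tk) * rk) = 0)
    (cm : l * ((ti - tm) * pm) + m * ((tj - tm) * rm) + n * ((tk - tm) * sm) = 0)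
    (c5 : l + m + n = 0)
    (e1 : wj * (ti - tj) * pj ^ 2 + wk * (ti - tk) * pk ^ 2 + wm * (ti - tm) * pm ^ 2 = -1)
    (e2 : wi * (tj - ti) * ri ^ 2 + wk * (tj - tk) * rk ^ 2 + wm * (tj - tm) * rm ^ 2 = -1)
    (e3 : wi * (tk - ti) * si ^ 2 + wj * (tk - tj) * sj ^ 2 + wm * (tk - tm) * sm ^ 2 = -1) :
    IsSquare (-wk * (wi * si ^ 2 + wj * sj ^ 2 + wm * sm ^ 2)) := by
  have hij' := sub_ne_zero.2 hij
  have hjk' := sub_ne_zero.2 hjk
  have hki' := sub_ne_zero.2 hki
  have him' := sub_ne_zero.2 him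
  have hjm' := sub_ne_zero.2 hjm
  have hkm' := sub_ne_zero.2 hkm
  have hn : n = -l - m := by linear_combination c5
  have key : e * ((ti - tm) * (tj - tm) * ((tk - ti) * l * pm - (tj - tk) * m * rm)) ^ 2 =
      ((tk - ti) * l - (tj - tk) * m) ^ 2 := by
    subst hw hn
    linear_combination (ti - tj) * (tk - ti) * l ^ 2 * e1 + (ti - tj) * (tj - tk) * m ^ 2 * e2 +
      (tj - tk) * (tk - ti) * (-l - m) ^ 2 * e3
      - wj * (tk - ti) * (l * ((ti - tj) * pj) - (-l - m) * ((tk - tj) * sj)) * cj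
      + wi * (tj - tk) * (m * ((tj - ti) * ri) - (-l - m) * ((tk - ti) * si)) * ci
      + wk * (ti - tj) * (l * ((ti - tk) * pk) - m * ((tj - tk) * rk)) * ck
      + e * (tj - tk) * (tk - ti) * (ti - tm) * (tj - tm) *
        ((-l - m) * ((tk - tm) * sm) - l * ((ti - tm) * pm) - m * ((tj - tm) * rm)) * cm
  obtain ⟨h1, h2⟩ := aniso he key
  obtain ⟨u, hu⟩ : ∃ u, l = (tj - tk) * u := ⟨l / (tj - tk), by field_simp⟩
  have hu0 : u ≠ 0 := by rintro rfl; exact hl (by simpa using hu)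
  have hm : m = (tk - ti) * u := by
    apply mul_left_cancel₀ hjk'
    rw [hu] at h2
    linear_combination -h2
  have hn' : n = (ti - tj) * u := by rw [hn, hu, hm]; ring
  subst hu hm
  rw [hn'] at ci cj cm
  have a1 : ri = si := by
    apply mul_left_cancel₀ (mul_ne_zero (mul_ne_zero hij' hki') hu0)
    linear_combination -ci
  have a2 : pj = sj := by
    apply mul_left_cancel₀ (mul_ne_zero (mul_ne_zero hij' hjk') hu0)
    linear_combination cj
  have a3 : pk = rk := by
    apply mul_left_cancel₀ (mul_ne_zero (mul_ne_zero hki' hjk') hu0)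
    linear_combination -ck
  have a4 : pm = rm := by
    apply mul_left_cancel₀
      (mul_ne_zero (mul_ne_zero (mul_ne_zero (mul_ne_zero hki' hjk') hu0) him') hjm')
    linear_combination h1
  subst a1 a2 a3 a4
  have a5 : pm = sm := by
    apply mul_left_cancel₀ (mul_ne_zero (mul_ne_zero hij' hkm') hu0)
    linear_combination -cm
  subst a5
  have a6 : wi * ri ^ 2 + wj * pj ^ 2 + wk * pk ^ 2 + wm * pm ^ 2 = 0 := by
    apply mul_left_cancel₀ hij'
    linear_combination e1 - e2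
  exact ⟨wk * pk, by linear_combination (-wk) * a6⟩

/-- a focal quadric contains no three collinear points -/
lemma elliptic (h2 : (2 : F) ≠ 0) {a b c l m n pj pk pm rj rk rm sj sk sm : F}
    (he : ¬ IsSquare (a * b * c)) (hl : l ≠ 0) (hm : m ≠ 0)
    (cj : l * pj + m * rj + n * sj = 0) (ck : l * pk + m * rk + n * sk = 0)
    (cm : l * pm + m * rm + n * sm = 0) (c5 : l + m + n = 0)
    (e1 : a * pj ^ 2 + b * pk ^ 2 + c * pm ^ 2 = -1)
    (e2 : a * rj ^ 2 + b * rk ^ 2 + c * rm ^ 2 = -1)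
    (e3 : a * sj ^ 2 + b * sk ^ 2 + c * sm ^ 2 = -1) : pj = rj := by
  have hn : n = -l - m := by linear_combination c5
  have hB : a * pj * rj + b * pk * rk + c * pm * rm = -1 := by
    apply mul_left_cancel₀ (mul_ne_zero (mul_ne_zero h2 hl) hm)
    subst hn
    linear_combination (-l - m) ^ 2 * e3 - l ^ 2 * e1 - m ^ 2 * e2
      + a * (l * pj + m * rj - (-l - m) * sj) * cj + b * (l * pk + m * rk - (-l - m) * sk) * ck
      + c * (l * pm + m * rm - (-l - m) * sm) * cm
  have key : a * b * c * (pj - rj) ^ 2 = (b * c * (pk * rm - pm * rk)) ^ 2 := by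
    linear_combination b * c * ((a * rj ^ 2 + 1) * e1 - (b * pk ^ 2 + c * pm ^ 2) * e2
      - ((a * pj * rj + 1) - (b * pk * rk + c * pm * rm)) * hB)
  exact sub_eq_zero.1 (aniso he key).1

end Pool.Agent.P.MP_59d9ab_co.Low
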