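import Pool.Agent.P.MP_59d9ab_co.LowAlg

set_option autoImplicit false
set_option linter.unusedSectionVars false

open Finset

namespace Pool.Agent.P.MP_59d9ab_co.Low

variable {F : Type} [Field F] [Fintype F] [DecidableEq F]

/-- weights of the confocal family -/
def wt (θ : Fin 4 → F) (e : F) (l : Fin 4) : F := e * ∏ r ∈ univ.erase l, (θ l - θ r)

/-- the member with parameter `t` -/
def qd (θ : Fin 4 → F) (e t : F) (n : Fin 4 → F) : F := ∑ l, wt θ e l * (t - θ l) * n l ^ 2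

/-- the leading form -/
def uu (θ : Fin 4 → F) (e : F) (n : Fin 4 → F) : F := ∑ l, wt θ e l * n l ^ 2

/-- the focal quadric number `i` in rescaled coordinates -/
def SS (θ : Fin 4 → F) (e : F) (i : Fin 4) : Finset (Fin 4 → F) :=
  univ.filter fun n => n i = 0 ∧ qd θ e (θ i) n = -1

open Classical in
/-- the part of it that is kept -/
noncomputable def AA (θ : Fin 4 → F) (e : F) (i : Fin 4) : Finset (Fin 4 → F) :=
  (SS θ e i).filter fun n => (∀ l, l ≠ i → n l ≠ 0) ∧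
    (2 ≤ i.val → ¬ IsSquare (-wt θ e i * uu θ e n))

/-- rescaling -/
def ph (θ : Fin 4 → F) (i : Fin 4) (n : Fin 4 → F) : Fin 4 → F := fun l => (θ i - θ l) * n l

/-- the cap -/
noncomputable def capSet (θ : Fin 4 → F) (e : F) : Finset (Fin 4 → F) :=
  univ.biUnion fun i => (AA θ e i).image (ph θ i)

/-- symmetric form of collinearity -/
def Col (x y z : Fin 4 → F) : Prop :=
  ∃ l m n : F, l ≠ 0 ∧ m ≠ 0 ∧ n ≠ 0 ∧ l + m + n = 0 ∧ ∀ c, l * x c + m * y c + n * z c = 0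

lemma Col.rot {x y z : Fin 4 → F} (h : Col x y z) : Col y z x := by
  obtain ⟨l, m, n, h1, h2, h3, h4, h5⟩ := h
  exact ⟨m, n, l, h2, h3, h1, by linear_combination h4, fun c => by linear_combination h5 c⟩

lemma col_of_collinear {x y z : Fin 4 → F} (hxy : x ≠ y) (hxz : x ≠ z) (hyz : y ≠ z)
    (h : Collinear F ({x, y, z} : Set (Fin 4 → F))) : Col x y z := by
  rw [collinear_iff_of_mem (p₀ := x) (by simp)] at h
  obtain ⟨v, hv⟩ := h
  obtain ⟨a, ha⟩ := hv y (by simp)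
  obtain ⟨b, hb⟩ := hv z (by simp)
  refine ⟨a - b, b, -a, ?_, ?_, ?_, by ring, fun c => ?_⟩
  · intro h
    exact hyz (by rw [ha, hb, sub_eq_zero.1 h])
  · rintro rfl
    exact hxz (by simpa using hb.symm)
  · intro h
    rw [neg_eq_zero.1 h] at ha
    exact hxy (by simpa using ha.symm)
  · rw [ha, hb]
    simp only [vadd_eq_add, Pi.add_apply, Pi.smul_apply, smul_eq_mul]
    ring

lemma ex4 : ∀ i j k : Fin 4, i ≠ j → j ≠ k → k ≠ i → ∃ m, i ≠ m ∧ j ≠ m ∧ k ≠ m := by decide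

lemma ex3 : ∀ i j : Fin 4, i ≠ j → ∃ k, j ≠ k ∧ k ≠ i := by decide

lemma big : ∀ i j k : Fin 4, i ≠ j → j ≠ k → k ≠ i → 2 ≤ i.val ∨ 2 ≤ j.val ∨ 2 ≤ k.val := by
  decide

lemma univ4 : ∀ i j k m : Fin 4, i ≠ j → j ≠ k → k ≠ i → i ≠ m → j ≠ m → k ≠ m →
    (univ : Finset (Fin 4)) = {i, j, k, m} ∧ univ.erase m = {i, j, k} := by decide

lemma sum4 {i j k m : Fin 4} (hij : i ≠ j) (hjk : j ≠ k) (hki : k ≠ i) (him : i ≠ m)
    (hjm : j ≠ m) (hkm : k ≠ m) (f : Fin 4 → F) : ∑ l, f l = f i + f j + f k + f m := by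
  rw [(univ4 i j k m hij hjk hki him hjm hkm).1, Finset.sum_insert (by simp [hij, hki.symm, him]),
    Finset.sum_insert (by simp [hjk, hjm]), Finset.sum_pair hkm]
  ring

lemma wt4 {i j k m : Fin 4} (hij : i ≠ j) (hjk : j ≠ k) (hki : k ≠ i) (him : i ≠ m)
    (hjm : j ≠ m) (hkm : k ≠ m) (θ : Fin 4 → F) (e : F) :
    wt θ e m = e * ((θ m - θ i) * (θ m - θ j) * (θ m - θ k)) := by
  rw [wt, (univ4 i j k m hij hjk hki him hjm hkm).2,
    Finset.prod_insert (by simp [hij, hki.symm]), Finset.prod_pair hjk]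
  ring

variable {θ : Fin 4 → F} {e : F}

lemma mem_SS {i : Fin 4} {n : Fin 4 → F} :
    n ∈ SS θ e i ↔ n i = 0 ∧ qd θ e (θ i) n = -1 := by simp [SS]

lemma mem_AA {i : Fin 4} {n : Fin 4 → F} :
    n ∈ AA θ e i ↔ n ∈ SS θ e i ∧ (∀ l, l ≠ i → n l ≠ 0) ∧
      (2 ≤ i.val → ¬ IsSquare (-wt θ e i * uu θ e n)) := by
  simp only [AA, Finset.mem_filter]

lemma tri (hθ : Function.Injective θ) (he : ¬ IsSquare e) {i j k : Fin 4} (hij : i ≠ j)
    (hjk : j ≠ k) (hki : k ≠ i) {p r s : Fin 4 → F} (hp : p ∈ SS θ e i) (hr : r ∈ SS θ e j)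
    (hs : s ∈ SS θ e k) (h : Col (ph θ i p) (ph θ j r) (ph θ k s)) :
    IsSquare (-wt θ e k * uu θ e s) := by
  obtain ⟨m, him, hjm, hkm⟩ := ex4 i j k hij hjk hki
  obtain ⟨a, b, c, ha, -, -, h4, h5⟩ := h
  rw [mem_SS, qd, sum4 hij hjk hki him hjm hkm] at hp hr hs
  have hu : uu θ e s = wt θ e i * s i ^ 2 + wt θ e j * s j ^ 2 + wt θ e m * s m ^ 2 := by
    rw [uu, sum4 hij hjk hki him hjm hkm, hs.1]; ring
  rw [hu]
  have ci := h5 i
  have cj := h5 j
  have ck := h5 k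
  have cm := h5 m
  simp only [ph] at ci cj ck cm
  exact transversal (l := a) (m := b) (n := c) (pj := p j) (pk := p k) (pm := p m) (ri := r i)
    (rk := r k) (rm := r m) he (hθ.ne hij) (hθ.ne hjk) (hθ.ne hki) (hθ.ne him) (hθ.ne hjm)
    (hθ.ne hkm) (wt4 hij hjk hki him hjm hkm θ e) ha (by linear_combination ci)
    (by linear_combination cj) (by linear_combination ck) cm h4 (by linear_combination hp.2)
    (by linear_combination hr.2) (by linear_combination hs.2)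

lemma same (h2 : (2 : F) ≠ 0) (hθ : Function.Injective θ) (he : ¬ IsSquare e) {i : Fin 4}
    {p r s : Fin 4 → F} (hp : p ∈ SS θ e i) (hr : r ∈ SS θ e i)
    (hs : s ∈ SS θ e i) (h : Col (ph θ i p) (ph θ i r) (ph θ i s)) : p = r := by
  funext j
  by_cases hij : i = j
  · subst hij; rw [(mem_SS.1 hp).1, (mem_SS.1 hr).1]
  obtain ⟨k, hjk, hki⟩ := ex3 i j hij
  obtain ⟨m, him, hjm, hkm⟩ := ex4 i j k hij hjk hki
  obtain ⟨a, b, c, ha, hb, -, h4, h5⟩ := h
  rw [mem_SS, qd, sum4 hij hjk hki him hjm hkm] at hp hr hs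
  have hc : ∀ l, i ≠ l → a * p l + b * r l + c * s l = 0 := by
    intro l hl
    apply mul_left_cancel₀ (sub_ne_zero.2 (hθ.ne hl))
    have := h5 l
    simp only [ph] at this
    linear_combination this
  have he0 : e ≠ 0 := by rintro rfl; exact he ⟨0, by simp⟩
  refine elliptic h2 (a := wt θ e j * (θ i - θ j)) (b := wt θ e k * (θ i - θ k))
    (c := wt θ e m * (θ i - θ m)) ?_ ha hb (hc j hij) (hc k hki.symm) (hc m him) h4
    (by linear_combination hp.2) (by linear_combination hr.2) (by linear_combination hs.2)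
  rw [wt4 hij hjk hki him hjm hkm, wt4 hij hjm him.symm hki.symm hjk hkm.symm,
    wt4 him hkm.symm hki hij hjm.symm hjk.symm]
  rintro ⟨u, hu⟩
  have d1 := sub_ne_zero.2 (hθ.ne hij)
  have d2 := sub_ne_zero.2 (hθ.ne hjk)
  have d3 := sub_ne_zero.2 (hθ.ne hki)
  have d4 := sub_ne_zero.2 (hθ.ne him)
  have d5 := sub_ne_zero.2 (hθ.ne hjm)
  have d6 := sub_ne_zero.2 (hθ.ne hkm)
  refine he ⟨u / (e * ((θ i - θ j) * (θ j - θ k) * (θ k - θ i) * (θ i - θ m) * (θ j - θ m) *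
    (θ k - θ m))), ?_⟩
  field_simp
  linear_combination hu

lemma two (hθ : Function.Injective θ) {i k : Fin 4} (hki : k ≠ i)
    {p r s : Fin 4 → F} (hs : s ∈ AA θ e k) :
    ¬ Col (ph θ i p) (ph θ i r) (ph θ k s) := by
  rintro ⟨a, b, c, -, -, hc, -, h5⟩
  have := h5 i
  simp only [ph, sub_self, zero_mul, mul_zero, zero_add] at this
  exact mul_ne_zero hc (mul_ne_zero (sub_ne_zero.2 (hθ.ne hki))
    ((mem_AA.1 hs).2.1 i hki.symm)) this

lemma capSet_cap (h2 : (2 : F) ≠ 0) (hθ : Function.Injective θ) (he : ¬ IsSquare e) :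
    ∀ x ∈ capSet θ e, ∀ y ∈ capSet θ e, ∀ z ∈ capSet θ e, x ≠ y → x ≠ z → y ≠ z →
      ¬ Collinear F ({x, y, z} : Set (Fin 4 → F)) := by
  intro x hx y hy z hz hxy hxz hyz hcol
  have h := col_of_collinear hxy hxz hyz hcol
  simp only [capSet, Finset.mem_biUnion, Finset.mem_univ, true_and, Finset.mem_image] at hx hy hz
  obtain ⟨i, p, hp, rfl⟩ := hx
  obtain ⟨j, r, hr, rfl⟩ := hy
  obtain ⟨k, s, hs, rfl⟩ := hz
  by_cases hij : i = j
  · subst hij
    by_cases hki : k = i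
    · subst hki
      exact hxy (by rw [same h2 hθ he (mem_AA.1 hp).1 (mem_AA.1 hr).1 (mem_AA.1 hs).1 h])
    · exact two hθ hki hs h
  by_cases hjk : j = k
  · subst hjk
    exact two hθ hij hp h.rot
  by_cases hki : k = i
  · subst hki
    exact two hθ hjk hr h.rot.rot
  rcases big i j k hij hjk hki with h1 | h1 | h1
  · exact (mem_AA.1 hp).2.2 h1
      (tri hθ he hjk hki hij (mem_AA.1 hr).1 (mem_AA.1 hs).1 (mem_AA.1 hp).1 h.rot)
  · exact (mem_AA.1 hr).2.2 h1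
      (tri hθ he hki hij hjk (mem_AA.1 hs).1 (mem_AA.1 hp).1 (mem_AA.1 hr).1 h.rot.rot)
  · exact (mem_AA.1 hs).2.2 h1
      (tri hθ he hij hjk hki (mem_AA.1 hp).1 (mem_AA.1 hr).1 (mem_AA.1 hs).1 h)

lemma capSet_card (hθ : Function.Injective θ) :
    #(capSet θ e) = ∑ i, #(AA θ e i) := by
  rw [capSet, Finset.card_biUnion]
  · refine Finset.sum_congr rfl fun i _ => Finset.card_image_of_injOn ?_
    intro p hp r hr h
    funext l
    by_cases hl : i = l
    · subst hl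
      rw [(mem_SS.1 (mem_AA.1 hp).1).1, (mem_SS.1 (mem_AA.1 hr).1).1]
    · exact mul_left_cancel₀ (sub_ne_zero.2 (hθ.ne hl)) (congrFun h l)
  · intro i _ j _ hij
    rw [Function.onFun, Finset.disjoint_left]
    intro x hx hy
    obtain ⟨p, -, rfl⟩ := Finset.mem_image.1 hx
    obtain ⟨r, hr, h⟩ := Finset.mem_image.1 hy
    have := congrFun h i
    simp only [ph, sub_self, zero_mul] at this
    exact mul_ne_zero (sub_ne_zero.2 (hθ.ne hij.symm)) ((mem_AA.1 hr).2.1 i hij) this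

end Pool.Agent.P.MP_59d9ab_co.Low
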