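import Mathlib

set_option autoImplicit false
set_option linter.unusedSectionVars false

open Finset

namespace Pool.Agent.P.MP_59d9ab_co.Low

variable {F : Type} [Field F] [Fintype F] [DecidableEq F]

/-- number of solutions of a diagonal quadratic equation -/
def cnt {ι : Type} [Fintype ι] [DecidableEq ι] (a : ι → F) (d : F) : ℕ :=
  #{n : ι → F | ∑ j, a j * n j ^ 2 = d}

lemma sq_sum (hF : ringChar F ≠ 2) (ψ : AddChar F ℂ) (hψ : ψ.IsPrimitive) (s : F) (hs : s ≠ 0) :
    ∑ x : F, ψ (s * x ^ 2) = ((quadraticChar F s : ℤ) : ℂ) *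
      gaussSum ((quadraticChar F).ringHomComp (Int.castRingHom ℂ)) ψ := by
  have h1 : ∑ x : F, ψ (s * x ^ 2) =
      ∑ y : F, (((quadraticChar F y : ℤ) : ℂ) + 1) * ψ (s * y) := by
    rw [← Finset.sum_fiberwise (s := univ) (g := fun x : F => x ^ 2)
      (f := fun x : F => ψ (s * x ^ 2))]
    refine Finset.sum_congr rfl fun y _ => ?_
    have h2 : ∑ x ∈ univ.filter (fun x : F => x ^ 2 = y), ψ (s * x ^ 2) =
        ∑ x ∈ univ.filter (fun x : F => x ^ 2 = y), ψ (s * y) := by
      refine Finset.sum_congr rfl fun x hx => ?_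
      rw [(Finset.mem_filter.1 hx).2]
    rw [h2, Finset.sum_const, nsmul_eq_mul]
    congr 1
    have h3 := quadraticChar_card_sqrts hF y
    have h4 : ({x : F | x ^ 2 = y} : Set F).toFinset = univ.filter (fun x : F => x ^ 2 = y) := by
      ext x; simp
    rw [h4] at h3
    exact_mod_cast congrArg (fun z : ℤ => (z : ℂ)) h3
  have h5 : ∑ y : F, ψ (s * y) = 0 := by
    have := AddChar.sum_mulShift s hψ
    simp only [hs, if_false, Nat.cast_zero] at this
    rw [← this]
    exact Finset.sum_congr rfl fun y _ => by rw [mul_comm]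
  have h6 := gaussSum_mulShift ((quadraticChar F).ringHomComp (Int.castRingHom ℂ)) ψ
    (Units.mk0 s hs)
  have h7 : ((quadraticChar F s : ℤ) : ℂ) * ((quadraticChar F s : ℤ) : ℂ) = 1 := by
    have := quadraticChar_sq_one hs
    rw [sq] at this
    exact_mod_cast congrArg (fun z : ℤ => (z : ℂ)) this
  rw [h1, ← h6]
  simp only [add_mul, one_mul, Finset.sum_add_distrib, h5, add_zero]
  simp only [gaussSum, MulChar.ringHomComp_apply, Units.val_mk0, AddChar.mulShift_apply,
    eq_intCast]
  rw [← mul_assoc, h7, one_mul]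

lemma psi_sum (ψ : AddChar F ℂ) {ι : Type} [DecidableEq ι] (s : Finset ι) (f : ι → F) :
    ∏ j ∈ s, ψ (f j) = ψ (∑ j ∈ s, f j) := by
  induction s using Finset.induction_on with
  | empty => simp
  | insert a s ha ih => rw [Finset.prod_insert ha, Finset.sum_insert ha, ih,
      AddChar.map_add_eq_mul]

lemma cnt_le (hF : ringChar F ≠ 2) {ι : Type} [Fintype ι] [DecidableEq ι] (m : ℕ)
    (hm : Fintype.card ι = 2 * m) (a : ι → F) (ha : ∀ j, a j ≠ 0) (d : F) :
    (Fintype.card F : ℝ) * cnt a d ≤ (Fintype.card F : ℝ) ^ (2 * m) +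
      (Fintype.card F : ℝ) ^ m * (if d = 0 then (Fintype.card F : ℝ) - 1 else 1) := by
  set ψ : AddChar F ℂ := AddChar.FiniteField.primitiveChar_to_Complex F with hψd
  have hψ : ψ.IsPrimitive := AddChar.FiniteField.primitiveChar_to_Complex_isPrimitive F
  set g : ℂ := gaussSum ((quadraticChar F).ringHomComp (Int.castRingHom ℂ)) ψ with hg
  have hg2 : g ^ 2 = ((quadraticChar F (-1) : ℤ) : ℂ) * Fintype.card F := by
    have := gaussSum_sq (χ := (quadraticChar F).ringHomComp (Int.castRingHom ℂ)) (ψ := ψ)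
      (MulChar.ringHomComp_ne_one_iff (RingHom.injective_int _) |>.2
        (quadraticChar_ne_one hF)) ((quadraticChar_isQuadratic F).comp _) hψ
    simpa using this
  have h1 : (Fintype.card F : ℂ) * cnt a d =
      ∑ t : F, ψ (t * (-d)) * ∏ j, ∑ x : F, ψ ((t * a j) * x ^ 2) := by
    have h2 : ∀ t : F, ψ (t * (-d)) * ∏ j, ∑ x : F, ψ ((t * a j) * x ^ 2) =
        ∑ n : ι → F, ψ (t * (∑ j, a j * n j ^ 2 - d)) := by
      intro t
      rw [Finset.prod_univ_sum, Finset.mul_sum]
      simp only [Fintype.piFinset_univ]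
      refine Finset.sum_congr rfl fun n _ => ?_
      rw [psi_sum, ← AddChar.map_add_eq_mul]
      congr 1
      rw [mul_sub, Finset.mul_sum]
      simp only [mul_assoc]
      ring
    simp only [h2]
    rw [Finset.sum_comm]
    simp only [AddChar.sum_mulShift _ hψ, sub_eq_zero]
    rw [cnt]
    simp [Finset.sum_ite, mul_comm]
  set c : ℂ := (∏ j, ((quadraticChar F (a j) : ℤ) : ℂ)) *
    ((quadraticChar F (-1) : ℤ) : ℂ) ^ m with hc
  have hchi : ∀ s : F, s ≠ 0 → ‖((quadraticChar F s : ℤ) : ℂ)‖ = 1 := by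
    intro s hs
    rcases quadraticChar_dichotomy hs with h | h <;> simp [h]
  have hcn : ‖c‖ = 1 := by
    rw [hc, norm_mul, norm_prod, norm_pow, hchi (-1) (by simp),
      Finset.prod_congr rfl fun j _ => hchi (a j) (ha j)]
    simp
  have h3 : ∀ t : F, t ≠ 0 → ∏ j, ∑ x : F, ψ ((t * a j) * x ^ 2) =
      c * (Fintype.card F : ℂ) ^ m := by
    intro t ht
    rw [Finset.prod_congr rfl fun j _ => sq_sum hF ψ hψ (t * a j) (mul_ne_zero ht (ha j))]
    simp only [map_mul, Int.cast_mul, Finset.prod_mul_distrib, Finset.prod_const,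
      Finset.card_univ, hm, pow_mul, ← hg, hg2]
    have h7 : ((quadraticChar F t : ℤ) : ℂ) ^ 2 = 1 := by
      exact_mod_cast congrArg (fun z : ℤ => (z : ℂ)) (quadraticChar_sq_one ht)
    rw [h7, hc, mul_pow]
    ring
  have h4 : ∑ t ∈ univ.erase (0 : F), ψ (t * (-d)) =
      if d = 0 then (Fintype.card F : ℂ) - 1 else -1 := by
    have h5 := AddChar.sum_mulShift (-d) hψ
    rw [← Finset.add_sum_erase _ _ (Finset.mem_univ (0 : F))] at h5
    simp only [zero_mul, AddChar.map_zero_eq_one, neg_eq_zero] at h5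
    split_ifs with h
    · simp only [h, if_true] at h5 ⊢
      linear_combination h5
    · simp only [h, if_false, Nat.cast_zero] at h5
      linear_combination h5
  have h6 : (Fintype.card F : ℂ) * cnt a d = (Fintype.card F : ℂ) ^ (2 * m) +
      c * (Fintype.card F : ℂ) ^ m * (if d = 0 then (Fintype.card F : ℂ) - 1 else -1) := by
    rw [h1, ← Finset.add_sum_erase _ _ (Finset.mem_univ (0 : F)), ← h4, Finset.mul_sum]
    congr 1
    · simp [hm]
    · refine Finset.sum_congr rfl fun t ht => ?_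
      rw [h3 t (Finset.ne_of_mem_erase ht)]
      ring
  have h8 : ‖(Fintype.card F : ℂ) * cnt a d‖ ≤ _ := h6 ▸ norm_add_le _ _
  have hq : (1 : ℝ) ≤ Fintype.card F := by exact_mod_cast Fintype.card_pos
  simp only [norm_mul, norm_pow, Complex.norm_natCast, hcn, one_mul] at h8
  refine h8.trans (le_of_eq ?_)
  congr 2
  split_ifs
  · have : ((Fintype.card F : ℂ) - 1) = (((Fintype.card F : ℝ) - 1 : ℝ) : ℂ) := by push_cast; rfl
    rw [this, Complex.norm_real, Real.norm_of_nonneg (by linarith)]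
  · simp

end Pool.Agent.P.MP_59d9ab_co.Low
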