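import Pool.Agent.P.MP_59d9ab_co.LowCap
import Pool.Agent.P.MP_59d9ab_co.LowCnt

set_option autoImplicit false
set_option linter.unusedSectionVars false

open Finset

namespace Pool.Agent.P.MP_59d9ab_co.Low

variable {F : Type} [Field F] [Fintype F] [DecidableEq F]

/-- the base surface of the pencil -/
def XX (θ : Fin 4 → F) (e : F) : Finset (Fin 4 → F) :=
  univ.filter fun n => uu θ e n = 0 ∧ qd θ e 0 n = -1

variable {θ : Fin 4 → F} {e : F}

lemma qd_eq (t : F) (n : Fin 4 → F) : qd θ e t n = t * uu θ e n + qd θ e 0 n := by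
  simp only [qd, uu, Fin.sum_univ_four]; ring

lemma qd_update (i : Fin 4) (n : Fin 4 → F) (c : F) :
    qd θ e (θ i) (Function.update n i c) = qd θ e (θ i) n := by
  refine Finset.sum_congr rfl fun l _ => ?_
  by_cases h : l = i
  · subst h; simp
  · rw [Function.update_of_ne h]

lemma uu_update (i : Fin 4) (n : Fin 4 → F) (c : F) :
    uu θ e (Function.update n i c) = uu θ e n + wt θ e i * (c ^ 2 - n i ^ 2) := by
  simp only [uu]
  rw [← Finset.add_sum_erase _ _ (Finset.mem_univ i),
    ← Finset.add_sum_erase _ (fun l => wt θ e l * n l ^ 2) (Finset.mem_univ i),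
    Finset.sum_congr rfl fun l hl => by rw [Function.update_of_ne (Finset.ne_of_mem_erase hl)]]
  simp only [Function.update_self]
  ring

lemma wt_ne (hθ : Function.Injective θ) (he : e ≠ 0) (l : Fin 4) : wt θ e l ≠ 0 :=
  mul_ne_zero he (Finset.prod_ne_zero_iff.2 fun _ hr =>
    sub_ne_zero.2 (hθ.ne (Finset.ne_of_mem_erase hr).symm))

lemma pencil : ∑ t : F, #{n : Fin 4 → F | qd θ e t n = -1} + cnt (wt θ e) 0 =
    Fintype.card F ^ 4 + Fintype.card F * #(XX θ e) := by
  have h1 : ∀ n : Fin 4 → F, (∑ t : F, if qd θ e t n = -1 then 1 else 0) +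
      (if uu θ e n = 0 then 1 else 0) =
      1 + Fintype.card F * (if uu θ e n = 0 ∧ qd θ e 0 n = -1 then 1 else 0) := by
    intro n
    by_cases hu : uu θ e n = 0
    · have : ∀ t, qd θ e t n = qd θ e 0 n := fun t => by rw [qd_eq, hu]; ring
      simp only [this, hu, if_true, true_and]
      split_ifs <;> simp [add_comm]
    · have : ∀ t, qd θ e t n = -1 ↔ t = (-1 - qd θ e 0 n) / uu θ e n := fun t => by
        rw [qd_eq, eq_div_iff hu]
        constructor <;> intro h <;> linear_combination h
      simp [this, hu]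
  simp only [cnt, XX, Finset.card_filter]
  rw [Finset.sum_comm, ← Finset.sum_add_distrib]
  refine (Finset.sum_congr rfl fun n _ => h1 n).trans ?_
  rw [Finset.sum_add_distrib, Finset.mul_sum]
  simp

lemma cyl (i : Fin 4) :
    #{n : Fin 4 → F | qd θ e (θ i) n = -1} ≤ Fintype.card F * #(SS θ e i) := by
  rw [← Finset.card_univ, ← Finset.card_product]
  refine Finset.card_le_card_of_injOn (fun n => (n i, Function.update n i 0)) ?_ ?_
  · intro n hn
    simp only [Finset.coe_filter, Finset.mem_univ, true_and, Set.mem_ofPred_eq] at hn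
    simp [mem_SS, qd_update, hn]
  · intro n _ n' _ h
    simp only [Prod.mk.injEq] at h
    funext l
    by_cases hl : l = i
    · rw [hl, h.1]
    · have := congrFun h.2 l
      rwa [Function.update_of_ne hl, Function.update_of_ne hl] at this

lemma base_le (hF : ringChar F ≠ 2) (hθ : Function.Injective θ) (he : e ≠ 0) :
    3 * (Fintype.card F : ℝ) ^ 2 - 2 * Fintype.card F + 5 + #(XX θ e) ≤
      ∑ i, (#(SS θ e i) : ℝ) := by
  have hq : (0 : ℝ) < Fintype.card F := by exact_mod_cast Fintype.card_pos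
  have h0 := cnt_le hF 2 (by simp) (wt θ e) (wt_ne hθ he) 0
  simp only [if_true] at h0
  have h1 : ∀ t ∈ univ \ univ.image θ, (#{n : Fin 4 → F | qd θ e t n = -1} : ℝ) ≤
      (Fintype.card F : ℝ) ^ 3 + Fintype.card F := by
    intro t ht
    have h2 := cnt_le hF 2 (by simp) (fun l => wt θ e l * (t - θ l)) (fun l => mul_ne_zero
      (wt_ne hθ he l) (sub_ne_zero.2 fun h => by simp [h] at ht)) (-1)
    simp only [neg_eq_zero, one_ne_zero, if_false] at h2
    refine le_of_mul_le_mul_left (h2.trans (le_of_eq ?_)) hq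
    ring
  have h3 := Finset.sum_le_card_nsmul _ _ _ h1
  have h4 : #(univ \ univ.image θ) + 4 = Fintype.card F := by
    rw [Finset.card_sdiff_of_subset (Finset.subset_univ _), Finset.card_image_of_injective _ hθ]
    have := Fintype.card_le_of_injective θ hθ
    simp at this ⊢
    omega
  have h5 : (#(univ \ univ.image θ) : ℝ) = Fintype.card F - 4 := by
    rw [← h4]; push_cast; ring
  rw [nsmul_eq_mul, h5] at h3
  have h6 : ∑ t ∈ univ.image θ, (#{n : Fin 4 → F | qd θ e t n = -1} : ℝ) ≤
      Fintype.card F * ∑ i, (#(SS θ e i) : ℝ) := by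
    rw [Finset.sum_image fun a _ b _ h => hθ h, Finset.mul_sum]
    exact Finset.sum_le_sum fun i _ => by exact_mod_cast cyl (θ := θ) (e := e) i
  have h7 : ∑ t : F, (#{n : Fin 4 → F | qd θ e t n = -1} : ℝ) + cnt (wt θ e) 0 =
      (Fintype.card F : ℝ) ^ 4 + Fintype.card F * #(XX θ e) := by
    exact_mod_cast pencil (θ := θ) (e := e)
  rw [← Finset.sum_sdiff (Finset.subset_univ (univ.image θ))] at h7
  have h8 : (cnt (wt θ e) 0 : ℝ) ≤ (Fintype.card F : ℝ) ^ 3 + (Fintype.card F : ℝ) ^ 2 -
      Fintype.card F := by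
    refine le_of_mul_le_mul_left (h0.trans (le_of_eq ?_)) hq
    ring
  refine le_of_mul_le_mul_left ?_ hq
  nlinarith

lemma conic (hF : ringChar F ≠ 2) (hθ : Function.Injective θ) (he : e ≠ 0) {i j : Fin 4}
    (hij : i ≠ j) : #{n ∈ SS θ e i | n j = 0} ≤ Fintype.card F + 1 := by
  obtain ⟨k, hjk, hki⟩ := ex3 i j hij
  obtain ⟨m, him, hjm, hkm⟩ := ex4 i j k hij hjk hki
  have hq : (0 : ℝ) < Fintype.card F := by exact_mod_cast Fintype.card_pos
  have h2 := cnt_le hF 1 (by simp) ![wt θ e k * (θ i - θ k), wt θ e m * (θ i - θ m)] (by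
    intro l
    fin_cases l
    · exact mul_ne_zero (wt_ne hθ he k) (sub_ne_zero.2 (hθ.ne hki.symm))
    · exact mul_ne_zero (wt_ne hθ he m) (sub_ne_zero.2 (hθ.ne him))) (-1)
  simp only [neg_eq_zero, one_ne_zero, if_false] at h2
  have h3 : (cnt ![wt θ e k * (θ i - θ k), wt θ e m * (θ i - θ m)] (-1) : ℝ) ≤
      Fintype.card F + 1 := by
    refine le_of_mul_le_mul_left (h2.trans (le_of_eq ?_)) hq
    ring
  have h4 : cnt ![wt θ e k * (θ i - θ k), wt θ e m * (θ i - θ m)] (-1) ≤
      Fintype.card F + 1 := by exact_mod_cast h3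
  refine le_trans ?_ h4
  refine Finset.card_le_card_of_injOn (fun n => ![n k, n m]) ?_ ?_
  · intro n hn
    simp only [Finset.coe_filter, Set.mem_ofPred_eq, mem_SS] at hn
    rw [qd, sum4 hij hjk hki him hjm hkm] at hn
    simp only [Finset.coe_filter, Finset.mem_univ, true_and, Set.mem_ofPred_eq,
      Fin.sum_univ_two, Matrix.cons_val_zero, Matrix.cons_val_one]
    have h := hn.1.2
    rw [hn.2] at h
    linear_combination h
  · intro n hn n' hn' h
    simp only [Finset.coe_filter, Set.mem_ofPred_eq, mem_SS] at hn hn'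
    have a1 : n k = n' k := by simpa using congrFun h 0
    have a2 : n m = n' m := by simpa using congrFun h 1
    funext l
    have hl := Finset.mem_univ l
    rw [(univ4 i j k m hij hjk hki him hjm hkm).1] at hl
    simp only [Finset.mem_insert, Finset.mem_singleton] at hl
    rcases hl with rfl | rfl | rfl | rfl
    · rw [hn.1.1, hn'.1.1]
    · rw [hn.2, hn'.2]
    · exact a1
    · exact a2

lemma branch (hF : ringChar F ≠ 2) (hθ : Function.Injective θ) (he : e ≠ 0) {i k : Fin 4}
    (hki : k ≠ i) : #{n ∈ SS θ e i | uu θ e n = 0} ≤ 2 * (Fintype.card F + 1) := by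
  refine le_trans (Finset.card_le_mul_card_image_of_maps_to
    (f := fun n => Function.update n k 0) (t := {n ∈ SS θ e k | n i = 0}) ?_ 2 ?_)
    (Nat.mul_le_mul_left 2 (conic hF hθ he hki))
  · intro n hn
    simp only [Finset.mem_filter, mem_SS] at hn ⊢
    refine ⟨⟨by simp, ?_⟩, by rw [Function.update_of_ne hki.symm, hn.1.1]⟩
    have h := hn.1.2
    rw [qd_update, qd_eq]
    rw [qd_eq] at h
    rw [hn.2] at h ⊢
    linear_combination h
  · intro b _
    rcases Finset.eq_empty_or_nonempty
      (Finset.filter (fun n => Function.update n k 0 = b) {n ∈ SS θ e i | uu θ e n = 0}) with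
      h | ⟨n, hn⟩
    · rw [h]; simp
    refine le_trans (Finset.card_le_card (t := {n, Function.update n k (-n k)}) ?_)
      Finset.card_le_two
    intro n' hn'
    simp only [Finset.mem_filter] at hn hn'
    have a1 : n' = Function.update n k (n' k) := by
      funext l
      by_cases hl : l = k
      · rw [hl]; simp
      · have := congrFun (hn.2.trans hn'.2.symm) l
        rw [Function.update_of_ne hl, Function.update_of_ne hl] at this
        rw [Function.update_of_ne hl, this]
    have a2 := uu_update (θ := θ) (e := e) k n (n' k)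
    rw [← a1, hn.1.2, hn'.1.2] at a2
    have a3 : n' k ^ 2 = n k ^ 2 := by
      apply mul_left_cancel₀ (wt_ne hθ he k)
      linear_combination -a2
    rcases sq_eq_sq_iff_eq_or_eq_neg.1 a3 with h | h
    · rw [a1, h]; simp
    · rw [a1, h]; simp

open Classical in
lemma half (h2 : (2 : F) ≠ 0) (hθ : Function.Injective θ) (he : e ≠ 0) (i : Fin 4) :
    2 * #{n ∈ SS θ e i | IsSquare (-wt θ e i * uu θ e n)} ≤
      #(XX θ e) + #{n ∈ SS θ e i | uu θ e n = 0} := by
  set P := {n ∈ SS θ e i | IsSquare (-wt θ e i * uu θ e n)} with hP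
  have h1 : ∀ p ∈ P, 2 ≤ #{n ∈ XX θ e | Function.update n i 0 = p} +
      (if uu θ e p = 0 then 1 else 0) := by
    intro p hp
    simp only [hP, Finset.mem_filter, mem_SS] at hp
    obtain ⟨⟨a1, a2⟩, c, hc⟩ := hp
    have hw := wt_ne hθ he i
    have hmem : ∀ d : F, d ^ 2 = (c / wt θ e i) ^ 2 →
        Function.update p i d ∈ {n ∈ XX θ e | Function.update n i 0 = p} := by
      intro d hd
      have b1 : uu θ e (Function.update p i d) = 0 := by
        rw [uu_update, hd, a1]
        field_simp
        linear_combination -hc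
      simp only [Finset.mem_filter, XX, Finset.mem_univ, true_and]
      refine ⟨⟨b1, ?_⟩, by rw [Function.update_idem, ← a1, Function.update_eq_self]⟩
      have b2 := qd_eq (θ := θ) (e := e) (θ i) (Function.update p i d)
      rw [qd_update, a2, b1] at b2
      linear_combination -b2
    split_ifs with hu
    · have := Finset.card_pos.2 ⟨_, hmem _ rfl⟩
      omega
    · have hc0 : c / wt θ e i ≠ 0 := by
        refine div_ne_zero ?_ hw
        rintro rfl
        exact mul_ne_zero (neg_ne_zero.2 hw) hu (by simpa using hc)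
      have := Finset.one_lt_card.2 ⟨_, hmem _ rfl, _, hmem (-(c / wt θ e i)) (by ring), by
        intro h
        have h' := congrFun h i
        simp only [Function.update_self] at h'
        exact mul_ne_zero h2 hc0 (by linear_combination h')⟩
      omega
  have h3 := Finset.card_nsmul_le_sum _ _ _ h1
  rw [smul_eq_mul, mul_comm, Finset.sum_add_distrib, Finset.sum_card_fiberwise_eq_card_filter,
    ← Finset.card_filter] at h3
  refine h3.trans (Nat.add_le_add (Finset.card_filter_le _ _) (Finset.card_le_card ?_))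
  intro n hn
  simp only [hP, Finset.mem_filter] at hn ⊢
  exact ⟨hn.1.1, hn.2⟩

open Classical in
lemma split (hF : ringChar F ≠ 2) (hθ : Function.Injective θ) (he : e ≠ 0) (i : Fin 4) :
    #(SS θ e i) ≤ #(AA θ e i) + 3 * (Fintype.card F + 1) +
      (if 2 ≤ i.val then #{n ∈ SS θ e i | IsSquare (-wt θ e i * uu θ e n)} else 0) := by
  have h1 : #((univ.erase i).biUnion fun l => {n ∈ SS θ e i | n l = 0}) ≤
      3 * (Fintype.card F + 1) := by
    refine (Finset.card_biUnion_le_card_mul _ _ (Fintype.card F + 1) fun l hl =>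
      conic hF hθ he (Finset.ne_of_mem_erase hl).symm).trans (le_of_eq ?_)
    simp
  have h2 : SS θ e i ⊆ (AA θ e i ∪ (univ.erase i).biUnion fun l => {n ∈ SS θ e i | n l = 0}) ∪
      (if 2 ≤ i.val then {n ∈ SS θ e i | IsSquare (-wt θ e i * uu θ e n)} else ∅) := by
    intro n hn
    simp only [Finset.mem_union, mem_AA, Finset.mem_biUnion, Finset.mem_filter,
      Finset.mem_erase, Finset.mem_univ, and_true]
    by_cases a1 : ∀ l, l ≠ i → n l ≠ 0
    · by_cases a2 : 2 ≤ i.val → ¬ IsSquare (-wt θ e i * uu θ e n)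
      · exact Or.inl (Or.inl ⟨hn, a1, a2⟩)
      · push Not at a2
        right
        rw [if_pos a2.1]
        exact Finset.mem_filter.2 ⟨hn, a2.2⟩
    · push Not at a1
      obtain ⟨l, hl, hl0⟩ := a1
      exact Or.inl (Or.inr ⟨l, hl, hn, hl0⟩)
  refine (Finset.card_le_card h2).trans ((Finset.card_union_le _ _).trans
    (Nat.add_le_add ((Finset.card_union_le _ _).trans (Nat.add_le_add_left h1 _)) ?_))
  split_ifs <;> simp

lemma capSet_large (hF : ringChar F ≠ 2) (hθ : Function.Injective θ) (he : e ≠ 0) :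
    3 * (Fintype.card F : ℝ) ^ 2 - 16 * Fintype.card F - 9 ≤ #(capSet θ e) := by
  classical
  have h2 : (2 : F) ≠ 0 := Ring.two_ne_zero hF
  have b := base_le hF hθ he
  have s0 := split hF hθ he 0
  have s1 := split hF hθ he 1
  have s2 := split hF hθ he 2
  have s3 := split hF hθ he 3
  have t2 := (half h2 hθ he 2).trans (Nat.add_le_add_left (branch hF hθ he (k := 0) (by decide)) _)
  have t3 := (half h2 hθ he 3).trans (Nat.add_le_add_left (branch hF hθ he (k := 0) (by decide)) _)
  rw [if_neg (by decide)] at s0 s1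
  rw [if_pos (by decide)] at s2 s3
  have u : #(SS θ e 0) + #(SS θ e 1) + #(SS θ e 2) + #(SS θ e 3) ≤
      #(capSet θ e) + #(XX θ e) + 14 * (Fintype.card F + 1) := by
    rw [capSet_card hθ, Fin.sum_univ_four]
    omega
  have u' : (#(SS θ e 0) : ℝ) + #(SS θ e 1) + #(SS θ e 2) + #(SS θ e 3) ≤
      #(capSet θ e) + #(XX θ e) + 14 * (Fintype.card F + 1) := by exact_mod_cast u
  rw [Fin.sum_univ_four] at b
  linarith

end Pool.Agent.P.MP_59d9ab_co.Low
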